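import Pool.Agent.L7h38.BQ.Stm

/-!
# The batch quotient ring: the basis of the polynomial ring for a complete intersection
-/

set_option autoImplicit false
set_option linter.unusedSectionVars false

namespace Pool.Agent.L7h79.BQ

open MvPolynomial Finset
open Pool.Agent.L7h38.BQ

variable {σ : Type} [Fintype σ] [DecidableEq σ]

theorem Bg_homog (f : σ → MvPolynomial σ ℚ) (a : σ → ℕ) (hf : ∀ s, (f s).IsHomogeneous (a s)) (e : σ →₀ ℕ) :
    (Bg f a e).IsHomogeneous (∑ s, e s) := by
  unfold Bg
  have h : ∀ s ∈ (univ : Finset σ), (f s ^ (e s / a s) * X s ^ (e s % a s) : MvPolynomial σ ℚ).IsHomogeneous (e s) := by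
    intro s _
    have h1 := ((hf s).pow (e s / a s)).mul ((isHomogeneous_X ℚ s).pow (e s % a s))
    have e1 : a s * (e s / a s) + 1 * (e s % a s) = e s := by
      rw [one_mul]
      exact Nat.div_add_mod _ _
    rw [e1] at h1
    exact h1
  exact IsHomogeneous.prod univ _ _ h

theorem Bg_of_lt (f : σ → MvPolynomial σ ℚ) (a : σ → ℕ) (e : σ →₀ ℕ) (he : ∀ s, e s < a s) :
    Bg f a e = monomial e 1 := by
  unfold Bg
  rw [monomial_eq, C_1, one_mul, Finsupp.prod_fintype _ _ (fun i => pow_zero _)]
  refine prod_congr rfl fun s _ => ?_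
  rw [Nat.div_eq_of_lt (he s), Nat.mod_eq_of_lt (he s), pow_zero, one_mul]

theorem mul_Bg (f : σ → MvPolynomial σ ℚ) (a : σ → ℕ) (ha : ∀ s, 1 ≤ a s) (s : σ) (e : σ →₀ ℕ) :
    f s * Bg f a e = Bg f a (e + Finsupp.single s (a s)) := by
  unfold Bg
  have h1 : f s = ∏ t : σ, if t = s then f s else 1 := by
    rw [Finset.prod_ite_eq' univ s]
    simp
  conv_lhs => rw [h1]
  rw [← prod_mul_distrib]
  refine prod_congr rfl fun t _ => ?_
  split_ifs with h
  · subst h
    rw [Finsupp.add_apply, Finsupp.single_eq_same, Nat.add_div_right _ (ha t), Nat.add_mod_right,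
      pow_succ]
    ring
  · rw [Finsupp.add_apply, Finsupp.single_eq_of_ne h, add_zero, one_mul]

theorem mul_mem_span (f : σ → MvPolynomial σ ℚ) (a : σ → ℕ) (ha : ∀ s, 1 ≤ a s) (s : σ) (p : MvPolynomial σ ℚ)
    (hp : p ∈ Submodule.span ℚ (Set.range (Bg f a))) :
    f s * p ∈ Submodule.span ℚ ((Bg f a) '' {e : σ →₀ ℕ | a s ≤ e s}) := by
  induction hp using Submodule.span_induction with
  | mem x hx =>
    obtain ⟨e, rfl⟩ := hx
    rw [mul_Bg f a ha]
    apply Submodule.subset_span
    refine ⟨_, ?_, rfl⟩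
    show a s ≤ (e + Finsupp.single s (a s)) s
    rw [Finsupp.add_apply, Finsupp.single_eq_same]
    omega
  | zero => rw [mul_zero]; exact Submodule.zero_mem _
  | add x y _ _ hx hy => rw [mul_add]; exact Submodule.add_mem _ hx hy
  | smul c x _ hx => rw [mul_smul_comm]; exact Submodule.smul_mem _ _ hx

/-- the homogeneous components of an element of the ideal -/
theorem comp_sum (f : σ → MvPolynomial σ ℚ) (a : σ → ℕ) (hf : ∀ s, (f s).IsHomogeneous (a s)) (s : σ)
    (g : MvPolynomial σ ℚ) (n : ℕ) :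
    homogeneousComponent n (f s * g) = if a s ≤ n then f s * homogeneousComponent (n - a s) g else 0 := by
  conv_lhs => rw [← sum_homogeneousComponent g, mul_sum, map_sum]
  have h1 : ∀ i ∈ range (g.totalDegree + 1), homogeneousComponent n (f s * homogeneousComponent i g) =
      if n = a s + i then f s * homogeneousComponent i g else 0 := by
    intro i _
    exact homogeneousComponent_of_mem ((hf s).mul (homogeneousComponent_isHomogeneous i g))
  rw [sum_congr rfl h1]
  split_ifs with h
  · by_cases h2 : n - a s ∈ range (g.totalDegree + 1)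
    · rw [sum_eq_single_of_mem (n - a s) h2]
      · rw [if_pos (by omega)]
      · intro j _ hj
        rw [if_neg (by omega)]
    · rw [homogeneousComponent_eq_zero _ _ (by rw [mem_range] at h2; omega), mul_zero]
      apply sum_eq_zero
      intro i hi
      rw [if_neg]
      rintro h3
      apply h2
      have : n - a s = i := by omega
      rw [this]
      exact hi
  · apply sum_eq_zero
    intro i _
    rw [if_neg (by omega)]

theorem comp_low (f : σ → MvPolynomial σ ℚ) (a : σ → ℕ) (hf : ∀ s, (f s).IsHomogeneous (a s)) (n : ℕ)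
    (u : MvPolynomial σ ℚ) (hu : u ∈ Submodule.span ℚ {q : MvPolynomial σ ℚ | ∃ b : σ →₀ ℕ,
      (∀ s, b s < a s) ∧ q = monomial b 1}) :
    homogeneousComponent n u ∈ Submodule.span ℚ (Set.range (Bg f a)) := by
  induction hu using Submodule.span_induction with
  | mem x hx =>
    obtain ⟨b, hb, rfl⟩ := hx
    rw [← Bg_of_lt f a b hb, homogeneousComponent_of_mem (Bg_homog f a hf b)]
    split_ifs
    · exact Submodule.subset_span ⟨b, rfl⟩
    · exact Submodule.zero_mem _
  | zero => rw [map_zero]; exact Submodule.zero_mem _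
  | add x y _ _ hx hy => rw [map_add]; exact Submodule.add_mem _ hx hy
  | smul c x _ hx => rw [map_smul]; exact Submodule.smul_mem _ _ hx

/-- spanning -/
theorem span_top (f : σ → MvPolynomial σ ℚ) (a : σ → ℕ) (ha : ∀ s, 1 ≤ a s) (hf : ∀ s, (f s).IsHomogeneous (a s))
    (hsp : ∀ p : MvPolynomial σ ℚ, p ∈ Submodule.span ℚ {q : MvPolynomial σ ℚ | ∃ b : σ →₀ ℕ,
      (∀ s, b s < a s) ∧ q = monomial b 1} ⊔ (Ideal.span (Set.range f)).restrictScalars ℚ) (p : MvPolynomial σ ℚ) :
    p ∈ Submodule.span ℚ (Set.range (Bg f a)) := by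
  have key : ∀ n : ℕ, ∀ p : MvPolynomial σ ℚ, p.IsHomogeneous n → p ∈ Submodule.span ℚ (Set.range (Bg f a)) := by
    intro n
    induction n using Nat.strong_induction_on with
    | _ n ih =>
      intro p hp
      obtain ⟨u, hu, v, hv, huv⟩ := Submodule.mem_sup.1 (hsp p)
      have hv' : v ∈ Ideal.span (Set.range f) := hv
      rw [Ideal.span, Submodule.mem_span_range_iff_exists_fun] at hv'
      obtain ⟨c, hc⟩ := hv'
      have h1 : p = homogeneousComponent n u + ∑ s, (if a s ≤ n then f s * homogeneousComponent (n - a s) (c s) else 0) := by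
        have h2 : homogeneousComponent n p = p := by
          rw [homogeneousComponent_of_mem hp, if_pos rfl]
        rw [← h2, ← huv, map_add, ← hc, map_sum]
        congr 1
        refine sum_congr rfl fun s _ => ?_
        rw [smul_eq_mul, mul_comm, comp_sum f a hf]
      rw [h1]
      apply Submodule.add_mem
      · exact comp_low f a hf n u hu
      · apply Submodule.sum_mem
        intro s _
        split_ifs with h
        · have h3 := ih (n - a s) (by have := ha s; omega) _ (homogeneousComponent_isHomogeneous (n - a s) (c s))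
          exact Submodule.span_mono (Set.image_subset_range _ _) (mul_mem_span f a ha s _ h3)
        · exact Submodule.zero_mem _
  rw [← sum_homogeneousComponent p]
  exact Submodule.sum_mem _ fun i _ => key i _ (homogeneousComponent_isHomogeneous i p)

/-- the linear map which maps the monomials to the family -/
noncomputable def Phi (f : σ → MvPolynomial σ ℚ) (a : σ → ℕ) : MvPolynomial σ ℚ →ₗ[ℚ] MvPolynomial σ ℚ :=
  (basisMonomials σ ℚ).constr ℚ (Bg f a)

theorem Phi_monomial (f : σ → MvPolynomial σ ℚ) (a : σ → ℕ) (e : σ →₀ ℕ) : Phi f a (monomial e 1) = Bg f a e := by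
  have h := (basisMonomials σ ℚ).constr_basis ℚ (Bg f a) e
  rwa [coe_basisMonomials] at h

theorem degree_sum (e : σ →₀ ℕ) : e.degree = ∑ s, e s := by
  rw [Finsupp.degree_eq_sum]

theorem comp_Phi (f : σ → MvPolynomial σ ℚ) (a : σ → ℕ) (hf : ∀ s, (f s).IsHomogeneous (a s)) (n : ℕ)
    (p : MvPolynomial σ ℚ) : homogeneousComponent n (Phi f a p) = Phi f a (homogeneousComponent n p) := by
  have h : (homogeneousComponent n).comp (Phi f a) = (Phi f a).comp (homogeneousComponent n) := by
    refine (basisMonomials σ ℚ).ext fun e => ?_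
    rw [coe_basisMonomials, LinearMap.comp_apply, LinearMap.comp_apply, Phi_monomial,
      homogeneousComponent_of_mem (Bg_homog f a hf e),
      homogeneousComponent_of_mem (isHomogeneous_monomial (1 : ℚ) (degree_sum e))]
    split_ifs
    · rw [Phi_monomial]
    · rw [map_zero]
  exact LinearMap.congr_fun h p

theorem Phi_surj (f : σ → MvPolynomial σ ℚ) (a : σ → ℕ)
    (hs : ∀ p : MvPolynomial σ ℚ, p ∈ Submodule.span ℚ (Set.range (Bg f a))) (p : MvPolynomial σ ℚ) :
    ∃ q, Phi f a q = p := by
  have h1 := hs p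
  induction h1 using Submodule.span_induction with
  | mem x hx =>
    obtain ⟨e, rfl⟩ := hx
    exact ⟨monomial e 1, Phi_monomial f a e⟩
  | zero => exact ⟨0, map_zero _⟩
  | add x y _ _ hx hy =>
    obtain ⟨q, rfl⟩ := hx
    obtain ⟨q', rfl⟩ := hy
    exact ⟨q + q', map_add _ _ _⟩
  | smul c x _ hx =>
    obtain ⟨q, rfl⟩ := hx
    exact ⟨c • q, map_smul _ _ _⟩

/-- independence -/
theorem indep (f : σ → MvPolynomial σ ℚ) (a : σ → ℕ) (hf : ∀ s, (f s).IsHomogeneous (a s))
    (hs : ∀ p : MvPolynomial σ ℚ, p ∈ Submodule.span ℚ (Set.range (Bg f a))) : LinearIndependent ℚ (Bg f a) := by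
  have hinj : Function.Injective (Phi f a) := by
    rw [injective_iff_map_eq_zero]
    intro p hp
    rw [← sum_homogeneousComponent p]
    apply sum_eq_zero
    intro n _
    have hmap : ∀ v ∈ homogeneousSubmodule σ ℚ n, Phi f a v ∈ homogeneousSubmodule σ ℚ n := by
      intro v hv
      have h1 := comp_Phi f a hf n v
      rw [homogeneousComponent_of_mem hv, if_pos rfl] at h1
      rw [← h1]
      exact homogeneousComponent_isHomogeneous n _
    obtain ⟨T, hT⟩ : ∃ T : homogeneousSubmodule σ ℚ n →ₗ[ℚ] homogeneousSubmodule σ ℚ n, T = (Phi f a).restrict hmap :=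
      ⟨_, rfl⟩
    have hTv : ∀ v, (T v : MvPolynomial σ ℚ) = Phi f a v := by
      intro v
      rw [hT]
      rfl
    haveI : Module.Finite ℚ (homogeneousSubmodule σ ℚ n) := Module.Finite.iff_fg.2 (homogeneousSubmodule_fg σ ℚ n)
    have hsurj : Function.Surjective T := by
      intro v
      obtain ⟨q, hq⟩ := Phi_surj f a hs (v : MvPolynomial σ ℚ)
      refine ⟨⟨homogeneousComponent n q, homogeneousComponent_isHomogeneous n q⟩, ?_⟩
      apply Subtype.ext
      rw [hTv]
      show Phi f a (homogeneousComponent n q) = v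
      rw [← comp_Phi f a hf, hq, homogeneousComponent_of_mem v.2, if_pos rfl]
    have hinj := LinearMap.injective_iff_surjective.2 hsurj
    have h2 : T ⟨homogeneousComponent n p, homogeneousComponent_isHomogeneous n p⟩ = 0 := by
      apply Subtype.ext
      rw [hTv]
      show Phi f a (homogeneousComponent n p) = 0
      rw [← comp_Phi f a hf, hp, map_zero]
    have h3 := hinj (h2.trans (map_zero T).symm)
    exact congrArg Subtype.val h3
  have h1 := (basisMonomials σ ℚ).linearIndependent.map' (Phi f a) (LinearMap.ker_eq_bot.2 hinj)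
  have h2 : (Phi f a) ∘ (basisMonomials σ ℚ) = Bg f a := by
    funext e
    rw [Function.comp, coe_basisMonomials, Phi_monomial]
  rwa [h2] at h1

/-- the ideal -/
theorem ideal_le (f : σ → MvPolynomial σ ℚ) (a : σ → ℕ) (ha : ∀ s, 1 ≤ a s)
    (hs : ∀ p : MvPolynomial σ ℚ, p ∈ Submodule.span ℚ (Set.range (Bg f a))) (p : MvPolynomial σ ℚ)
    (hp : p ∈ Ideal.span (Set.range f)) :
    p ∈ Submodule.span ℚ ((Bg f a) '' {e : σ →₀ ℕ | ∃ s, a s ≤ e s}) := by
  rw [Ideal.span, Submodule.mem_span_range_iff_exists_fun] at hp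
  obtain ⟨c, rfl⟩ := hp
  apply Submodule.sum_mem
  intro s _
  rw [smul_eq_mul, mul_comm]
  refine Submodule.span_mono (Set.image_mono ?_) (mul_mem_span f a ha s _ (hs (c s)))
  intro e he
  exact ⟨s, he⟩

/-- the standard exponents -/
noncomputable def lowF (a : σ → ℕ) (b : ∀ s, Fin (a s)) : σ →₀ ℕ := Finsupp.equivFunOnFinite.symm fun s => (b s : ℕ)

theorem finrank_eq (f : σ → MvPolynomial σ ℚ) (a : σ → ℕ) (ha : ∀ s, 1 ≤ a s)
    (hsp : ∀ p : MvPolynomial σ ℚ, p ∈ Submodule.span ℚ {q : MvPolynomial σ ℚ | ∃ b : σ →₀ ℕ,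
      (∀ s, b s < a s) ∧ q = monomial b 1} ⊔ (Ideal.span (Set.range f)).restrictScalars ℚ)
    (hs : ∀ p : MvPolynomial σ ℚ, p ∈ Submodule.span ℚ (Set.range (Bg f a))) (hi : LinearIndependent ℚ (Bg f a)) :
    Module.finrank ℚ (MvPolynomial σ ℚ ⧸ Ideal.span (Set.range f)) = ∏ s, a s := by
  obtain ⟨q, hq⟩ : ∃ q : MvPolynomial σ ℚ →ₗ[ℚ] (MvPolynomial σ ℚ ⧸ Ideal.span (Set.range f)),
    q = (Ideal.Quotient.mkₐ ℚ (Ideal.span (Set.range f))).toLinearMap := ⟨_, rfl⟩
  have hker : ∀ p, q p = 0 ↔ p ∈ Ideal.span (Set.range f) := by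
    intro p
    rw [hq]
    exact Ideal.Quotient.eq_zero_iff_mem
  have hlt : ∀ b : ∀ s, Fin (a s), ∀ s, lowF a b s < a s := fun b s => (b s).2
  have hli : LinearIndependent ℚ (fun b : ∀ s, Fin (a s) => q (Bg f a (lowF a b))) := by
    have h1 : LinearIndependent ℚ (fun b : ∀ s, Fin (a s) => Bg f a (lowF a b)) := by
      apply hi.comp
      intro b b' h
      funext s
      apply Fin.ext
      have := DFunLike.congr_fun h s
      exact this
    apply h1.map
    rw [Submodule.disjoint_def]
    intro x hx hx'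
    have h2 : x ∈ Ideal.span (Set.range f) := (hker x).1 hx'
    have h3 := ideal_le f a ha hs x h2
    have h4 : Disjoint (Submodule.span ℚ ((Bg f a) '' {e : σ →₀ ℕ | ∀ s, e s < a s}))
        (Submodule.span ℚ ((Bg f a) '' {e : σ →₀ ℕ | ∃ s, a s ≤ e s})) := by
      apply hi.disjoint_span_image
      rw [Set.disjoint_left]
      rintro e he ⟨s, hs⟩
      have := he s
      omega
    rw [Submodule.disjoint_def] at h4
    apply h4 x _ h3
    refine Submodule.span_mono ?_ hx
    rintro _ ⟨b, rfl⟩
    exact ⟨lowF a b, hlt b, rfl⟩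
  have hspan : ⊤ ≤ Submodule.span ℚ (Set.range (fun b : ∀ s, Fin (a s) => q (Bg f a (lowF a b)))) := by
    rintro x -
    obtain ⟨p, rfl⟩ := Ideal.Quotient.mk_surjective x
    obtain ⟨u, hu, v, hv, huv⟩ := Submodule.mem_sup.1 (hsp p)
    have h1 : Ideal.Quotient.mk (Ideal.span (Set.range f)) p = q u := by
      have h2 : q v = 0 := (hker v).2 hv
      have h3 : Ideal.Quotient.mk (Ideal.span (Set.range f)) p = q p := by rw [hq]; rfl
      rw [h3, ← huv, map_add, h2, add_zero]
    rw [h1]
    have h4 : ∀ u ∈ Submodule.span ℚ {q : MvPolynomial σ ℚ | ∃ b : σ →₀ ℕ, (∀ s, b s < a s) ∧ q = monomial b 1},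
        q u ∈ Submodule.span ℚ (Set.range (fun b : ∀ s, Fin (a s) => q (Bg f a (lowF a b)))) := by
      intro u hu
      induction hu using Submodule.span_induction with
      | mem x hx =>
        obtain ⟨b, hb, rfl⟩ := hx
        apply Submodule.subset_span
        refine ⟨fun s => ⟨b s, hb s⟩, ?_⟩
        have e : lowF a (fun s => ⟨b s, hb s⟩) = b := by
          ext s
          rfl
        show q (Bg f a (lowF a (fun s => ⟨b s, hb s⟩))) = q (monomial b 1)
        rw [e, Bg_of_lt f a b hb]
      | zero => rw [map_zero]; exact Submodule.zero_mem _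
      | add x y _ _ hx hy => rw [map_add]; exact Submodule.add_mem _ hx hy
      | smul c x _ hx => rw [map_smul]; exact Submodule.smul_mem _ _ hx
    exact h4 u hu
  rw [Module.finrank_eq_card_basis (Module.Basis.mk hli hspan), Fintype.card_pi]
  refine prod_congr rfl fun s _ => Fintype.card_fin _

/-- **BAS** -/
theorem s_BAS : S_BAS := by
  intro σ _ _ f a ha hf hsp
  have hs := span_top f a ha hf hsp
  have hi := indep f a hf hs
  exact ⟨hi, fun p _ => hs p, finrank_eq f a ha hsp hs hi⟩

end Pool.Agent.L7h79.BQ
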