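import Pool.Agent.L7h79.BQ.Tr

/-!
# The batch quotient ring: the trace on the quotient
-/

set_option autoImplicit false
set_option linter.unusedSectionVars false

namespace Pool.Agent.L7h79.BQ

open MvPolynomial Finset
open Pool.Agent.L7h38.BQ

variable {σ : Type} [Fintype σ] [DecidableEq σ]

theorem mk_Bg_eq_zero (f : σ → MvPolynomial σ ℚ) (a : σ → ℕ) (ha : ∀ s, 1 ≤ a s) (e : σ →₀ ℕ) (s : σ) (h : a s ≤ e s) :
    Ideal.Quotient.mk (Ideal.span (Set.range f)) (Bg f a e) = 0 := by
  rw [Ideal.Quotient.eq_zero_iff_mem]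
  have h1 : e = (e - Finsupp.single s (a s)) + Finsupp.single s (a s) := by
    rw [tsub_add_cancel_of_le]
    rw [Finsupp.single_le_iff]
    exact h
  rw [h1, ← mul_Bg f a ha]
  exact Ideal.mul_mem_right _ _ (Ideal.subset_span ⟨s, rfl⟩)

theorem lowF_inj (a : σ → ℕ) {b b' : ∀ s, Fin (a s)} (h : lowF a b = lowF a b') : b = b' := by
  funext s
  apply Fin.ext
  have := DFunLike.congr_fun h s
  exact this

theorem quot_basis (f : σ → MvPolynomial σ ℚ) (a : σ → ℕ) (ha : ∀ s, 1 ≤ a s)
    (B : Module.Basis (σ →₀ ℕ) ℚ (MvPolynomial σ ℚ)) (hB : ∀ e, B e = Bg f a e) :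
    ∃ Qb : Module.Basis (∀ s, Fin (a s)) ℚ (MvPolynomial σ ℚ ⧸ Ideal.span (Set.range f)),
      (∀ b, Qb b = Ideal.Quotient.mk (Ideal.span (Set.range f)) (Bg f a (lowF a b))) ∧
      ∀ p b, Qb.repr (Ideal.Quotient.mk (Ideal.span (Set.range f)) p) b = B.repr p (lowF a b) := by
  have hi : LinearIndependent ℚ (Bg f a) := by
    have h1 : (B : (σ →₀ ℕ) → MvPolynomial σ ℚ) = Bg f a := funext hB
    rw [← h1]
    exact B.linearIndependent
  have hs : ∀ p : MvPolynomial σ ℚ, p ∈ Submodule.span ℚ (Set.range (Bg f a)) := by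
    intro p
    have h1 : (B : (σ →₀ ℕ) → MvPolynomial σ ℚ) = Bg f a := funext hB
    rw [← h1, B.span_eq]
    trivial
  obtain ⟨q, hq⟩ : ∃ q : MvPolynomial σ ℚ →ₗ[ℚ] (MvPolynomial σ ℚ ⧸ Ideal.span (Set.range f)),
    q = (Ideal.Quotient.mkₐ ℚ (Ideal.span (Set.range f))).toLinearMap := ⟨_, rfl⟩
  have hqm : ∀ p, Ideal.Quotient.mk (Ideal.span (Set.range f)) p = q p := by
    intro p
    rw [hq]
    rfl
  have hker : ∀ p, q p = 0 ↔ p ∈ Ideal.span (Set.range f) := by
    intro p
    rw [hq]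
    exact Ideal.Quotient.eq_zero_iff_mem
  have hlt : ∀ b : ∀ s, Fin (a s), ∀ s, lowF a b s < a s := fun b s => (b s).2
  have hli : LinearIndependent ℚ (fun b : ∀ s, Fin (a s) => q (Bg f a (lowF a b))) := by
    have h1 : LinearIndependent ℚ (fun b : ∀ s, Fin (a s) => Bg f a (lowF a b)) :=
      hi.comp _ (fun b b' h => lowF_inj a h)
    apply h1.map
    rw [Submodule.disjoint_def]
    intro x hx hx'
    have h2 : x ∈ Ideal.span (Set.range f) := (hker x).1 hx'
    have h3 := ideal_le f a ha hs x h2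
    have h4 : Disjoint (Submodule.span ℚ ((Bg f a) '' {e : σ →₀ ℕ | ∀ s, e s < a s}))
        (Submodule.span ℚ ((Bg f a) '' {e : σ →₀ ℕ | ∃ s, a s ≤ e s})) := by
      apply hi.disjoint_span_image
      rw [Set.disjoint_left]
      rintro e he ⟨s, hs⟩
      have := he s
      omega
    rw [Submodule.disjoint_def] at h4
    apply h4 x _ h3
    refine Submodule.span_mono ?_ hx
    rintro _ ⟨b, rfl⟩
    exact ⟨lowF a b, hlt b, rfl⟩
  have hspan : ⊤ ≤ Submodule.span ℚ (Set.range (fun b : ∀ s, Fin (a s) => q (Bg f a (lowF a b)))) := by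
    rintro x -
    obtain ⟨p, rfl⟩ := Ideal.Quotient.mk_surjective x
    rw [hqm]
    have h1 := hs p
    induction h1 using Submodule.span_induction with
    | mem x hx =>
      obtain ⟨e, rfl⟩ := hx
      by_cases h : ∃ s, a s ≤ e s
      · obtain ⟨s, hs'⟩ := h
        rw [← hqm, mk_Bg_eq_zero f a ha e s hs']
        exact Submodule.zero_mem _
      · push Not at h
        apply Submodule.subset_span
        refine ⟨fun s => ⟨e s, h s⟩, ?_⟩
        have e1 : lowF a (fun s => ⟨e s, h s⟩) = e := by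
          ext s
          rfl
        show q (Bg f a (lowF a (fun s => ⟨e s, h s⟩))) = q (Bg f a e)
        rw [e1]
    | zero => rw [map_zero]; exact Submodule.zero_mem _
    | add x y _ _ hx hy => rw [map_add]; exact Submodule.add_mem _ hx hy
    | smul c x _ hx => rw [map_smul]; exact Submodule.smul_mem _ _ hx
  refine ⟨Module.Basis.mk hli hspan, fun b => by rw [Module.Basis.mk_apply, hqm], ?_⟩
  obtain ⟨Qb, hQb⟩ : ∃ Qb : Module.Basis (∀ s, Fin (a s)) ℚ (MvPolynomial σ ℚ ⧸ Ideal.span (Set.range f)),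
    Qb = Module.Basis.mk hli hspan := ⟨_, rfl⟩
  have hQ : ∀ b, Qb b = q (Bg f a (lowF a b)) := by intro b; rw [hQb, Module.Basis.mk_apply]
  rw [← hQb]
  intro p b
  have h1 : (Qb.coord b).comp q = B.coord (lowF a b) := by
    refine B.ext fun e => ?_
    rw [LinearMap.comp_apply, Module.Basis.coord_apply, Module.Basis.coord_apply, Module.Basis.repr_self]
    by_cases h : ∃ s, a s ≤ e s
    · obtain ⟨s, hs'⟩ := h
      have h2 : e ≠ lowF a b := by
        rintro rfl
        have := hlt b s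
        omega
      rw [hB, ← hqm, mk_Bg_eq_zero f a ha e s hs', map_zero, Finsupp.single_eq_of_ne (Ne.symm h2)]
      rfl
    · push Not at h
      have e1 : lowF a (fun s => ⟨e s, h s⟩) = e := by
        ext s
        rfl
      rw [hB]
      conv_lhs => rw [← e1]
      rw [← hQ, Module.Basis.repr_self, Finsupp.single_apply, Finsupp.single_apply]
      by_cases h3 : (fun s => (⟨e s, h s⟩ : Fin (a s))) = b
      · rw [if_pos h3, if_pos (by rw [← h3, e1])]
      · rw [if_neg h3, if_neg]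
        intro h4
        apply h3
        apply lowF_inj a
        rw [e1, h4]
  have h2 := LinearMap.congr_fun h1 p
  rw [LinearMap.comp_apply, Module.Basis.coord_apply, Module.Basis.coord_apply] at h2
  rw [hqm]
  exact h2

/-- the graded pieces of the quotient -/
theorem pc_span (f : σ → MvPolynomial σ ℚ) (a : σ → ℕ) (ha : ∀ s, 1 ≤ a s) (hf : ∀ s, (f s).IsHomogeneous (a s))
    (B : Module.Basis (σ →₀ ℕ) ℚ (MvPolynomial σ ℚ)) (hB : ∀ e, B e = Bg f a e)
    (Qb : Module.Basis (∀ s, Fin (a s)) ℚ (MvPolynomial σ ℚ ⧸ Ideal.span (Set.range f)))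
    (hQ : ∀ b, Qb b = Ideal.Quotient.mk (Ideal.span (Set.range f)) (Bg f a (lowF a b))) (j : ℕ) :
    pc (Ideal.span (Set.range f)) j = Submodule.span ℚ (Qb ''
      ((univ.filter (fun b : ∀ s, Fin (a s) => ∑ s, (b s : ℕ) = j) : Finset (∀ s, Fin (a s))) : Set (∀ s, Fin (a s)))) := by
  unfold pc
  rw [homog_span B (fun e => by rw [hB]; exact Bg_homog f a hf e) j, Submodule.map_span]
  apply le_antisymm
  · rw [Submodule.span_le]
    rintro _ ⟨_, ⟨e, he, rfl⟩, rfl⟩
    show Ideal.Quotient.mk (Ideal.span (Set.range f)) (B e) ∈ _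
    rw [hB]
    by_cases h : ∃ s, a s ≤ e s
    · obtain ⟨s, hs'⟩ := h
      rw [mk_Bg_eq_zero f a ha e s hs']
      exact Submodule.zero_mem _
    · push Not at h
      apply Submodule.subset_span
      have e1 : lowF a (fun s => ⟨e s, h s⟩) = e := by
        ext s
        rfl
      refine ⟨fun s => ⟨e s, h s⟩, ?_, ?_⟩
      · rw [mem_coe, mem_filter]
        exact ⟨mem_univ _, mem_En.1 (mem_coe.1 he)⟩
      · rw [hQ, e1]
  · apply Submodule.span_mono
    rintro _ ⟨b, hb, rfl⟩
    rw [mem_coe, mem_filter] at hb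
    refine ⟨Bg f a (lowF a b), ⟨lowF a b, mem_coe.2 (mem_En.2 hb.2), hB _⟩, ?_⟩
    rw [hQ]
    rfl

/-- the number of the exponents with given remainders and invariant quotients -/
theorem count_quo (a : σ → ℕ) (ha : ∀ s, 1 ≤ a s) (π : Equiv.Perm σ) (n : ℕ) (b : ∀ s, Fin (a s)) :
    (((En σ n).filter (fun e => (fun s => (⟨e s % a s, Nat.mod_lt _ (ha s)⟩ : Fin (a s))) = b ∧
      ∀ s, quo a e (π s) = quo a e s)).card : ℚ) =
      if ∑ s, (b s : ℕ) ≤ n then (FixS π a).coeff (n - ∑ s, (b s : ℕ)) else 0 := by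
  split_ifs with h
  · rw [FixS, PowerSeries.coeff_mk]
    congr 1
    rw [← Fintype.card_coe, ← Nat.card_eq_fintype_card]
    refine Nat.card_congr ⟨fun e => ⟨quo a e.1, ?_⟩,
      fun μ => ⟨lowF a b + Finsupp.equivFunOnFinite.symm fun s => a s * μ.1 s, ?_⟩, fun e => ?_, fun μ => ?_⟩
    · have h1 := (mem_filter.1 e.2)
      refine ⟨h1.2.2, ?_⟩
      have h2 := mem_En.1 h1.1
      have h3 : ∑ s, e.1 s = ∑ s, (b s : ℕ) + ∑ s, a s * quo a e.1 s := by
        rw [← sum_add_distrib]
        refine sum_congr rfl fun s _ => ?_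
        have h4 : e.1 s % a s = b s := congrArg Fin.val (congrFun h1.2.1 s)
        rw [← h4]
        exact (Nat.mod_add_div _ _).symm
      omega
    · have h1 : ∀ s, (lowF a b + Finsupp.equivFunOnFinite.symm fun s => a s * μ.1 s : σ →₀ ℕ) s =
        (b s : ℕ) + a s * μ.1 s := fun s => rfl
      rw [mem_filter, mem_En]
      refine ⟨?_, ?_, ?_⟩
      · rw [sum_congr rfl (fun s _ => h1 s), sum_add_distrib, μ.2.2]
        omega
      · funext s
        apply Fin.ext
        show (lowF a b + Finsupp.equivFunOnFinite.symm fun s => a s * μ.1 s : σ →₀ ℕ) s % a s = b s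
        rw [h1, Nat.add_mul_mod_self_left, Nat.mod_eq_of_lt (b s).2]
      · have h2 : ∀ s, quo a (lowF a b + Finsupp.equivFunOnFinite.symm fun s => a s * μ.1 s) s = μ.1 s := by
          intro s
          show (lowF a b + Finsupp.equivFunOnFinite.symm fun s => a s * μ.1 s : σ →₀ ℕ) s / a s = μ.1 s
          rw [h1, Nat.add_mul_div_left _ _ (ha s), Nat.div_eq_of_lt (b s).2, zero_add]
        intro s
        rw [h2, h2]
        exact μ.2.1 s
    · apply Subtype.ext
      ext s
      have h1 := (mem_filter.1 e.2)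
      show (b s : ℕ) + a s * (e.1 s / a s) = e.1 s
      have h4 : e.1 s % a s = b s := congrArg Fin.val (congrFun h1.2.1 s)
      rw [← h4]
      exact Nat.mod_add_div _ _
    · apply Subtype.ext
      funext s
      show ((b s : ℕ) + a s * μ.1 s) / a s = μ.1 s
      rw [Nat.add_mul_div_left _ _ (ha s), Nat.div_eq_of_lt (b s).2, zero_add]
  · rw [Nat.cast_eq_zero, card_eq_zero, filter_eq_empty_iff]
    rintro e he ⟨h1, -⟩
    apply h
    rw [← mem_En.1 he]
    apply sum_le_sum
    intro s _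
    have h4 : e s % a s = b s := congrArg Fin.val (congrFun h1 s)
    rw [← h4]
    exact Nat.mod_le _ _

/-- **TR** -/
theorem s_TR : S_TR := by
  intro σ _ _ f a g π ha hf hfg haπ hi hsp h
  have hs : ∀ p : MvPolynomial σ ℚ, p ∈ Submodule.span ℚ (Set.range (Bg f a)) := fun p => hsp trivial
  obtain ⟨B, hB'⟩ : ∃ B : Module.Basis (σ →₀ ℕ) ℚ (MvPolynomial σ ℚ), B = Module.Basis.mk hi hsp := ⟨_, rfl⟩
  have hB : ∀ e, B e = Bg f a e := by intro e; rw [hB', Module.Basis.mk_apply]
  obtain ⟨Qb, hQ, hQr⟩ := quot_basis f a ha B hB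
  obtain ⟨c, hc⟩ : ∃ c : (σ →₀ ℕ) → ℚ, c = fun b => B.repr (rename g (Bg f a b)) b := ⟨_, rfl⟩
  have hc' : ∀ b, B.repr (rename g (Bg f a b)) b = c b := by intro b; rw [hc]
  -- the graded trace
  have hgtr : ∀ j, (gtr (Ideal.span (Set.range f)) g h).coeff j =
      ∑ b ∈ univ.filter (fun b : ∀ s, Fin (a s) => ∑ s, (b s : ℕ) = j), c (lowF a b) := by
    intro j
    rw [gtr, PowerSeries.coeff_mk, trace_sub Qb _ _ (pc_span f a ha hf B hB Qb hQ j)]
    refine sum_congr rfl fun b _ => ?_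
    rw [hQ]
    have h1 : (act (Ideal.span (Set.range f)) g h).toLinearMap
        (Ideal.Quotient.mk (Ideal.span (Set.range f)) (Bg f a (lowF a b))) =
        Ideal.Quotient.mk (Ideal.span (Set.range f)) (rename g (Bg f a (lowF a b))) := rfl
    rw [h1, hQr, hc']
  ext n
  rw [← trace_mon, trace_sub B (En σ n) _ (homog_span B (fun e => by rw [hB]; exact Bg_homog f a hf e) n)]
  have h1 : ∀ e ∈ En σ n, B.repr ((rename g : MvPolynomial σ ℚ →ₐ[ℚ] MvPolynomial σ ℚ).toLinearMap (B e)) e =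
      if (∀ s, quo a e (π s) = quo a e s) then c (rem a e) else 0 := by
    intro e _
    rw [hB]
    have h2 := diag_Bg f a g π ha hfg B hB e
    rw [hc' (rem a e)] at h2
    exact h2
  rw [sum_congr rfl h1]
  rw [← sum_fiberwise (En σ n) (fun e => (fun s => (⟨e s % a s, Nat.mod_lt _ (ha s)⟩ : Fin (a s))))]
  have h2 : ∀ b : ∀ s, Fin (a s), ∑ e ∈ (En σ n).filter (fun e => (fun s => (⟨e s % a s, Nat.mod_lt _ (ha s)⟩ :
      Fin (a s))) = b), (if (∀ s, quo a e (π s) = quo a e s) then c (rem a e) else 0) =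
      (if ∑ s, (b s : ℕ) ≤ n then (FixS π a).coeff (n - ∑ s, (b s : ℕ)) else 0) * c (lowF a b) := by
    intro b
    rw [← count_quo a ha π n b]
    have h3 : ∀ e ∈ (En σ n).filter (fun e => (fun s => (⟨e s % a s, Nat.mod_lt _ (ha s)⟩ : Fin (a s))) = b),
        (if (∀ s, quo a e (π s) = quo a e s) then c (rem a e) else 0) =
        (if (∀ s, quo a e (π s) = quo a e s) then (1 : ℚ) else 0) * c (lowF a b) := by
      intro e he
      have h4 : rem a e = lowF a b := by
        ext s
        exact congrArg Fin.val (congrFun (mem_filter.1 he).2 s)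
      rw [h4]
      split_ifs
      · rw [one_mul]
      · rw [zero_mul]
    rw [sum_congr rfl h3, ← sum_mul, sum_boole, filter_filter]
  rw [sum_congr rfl (fun b _ => h2 b), PowerSeries.coeff_mul]
  have h3 : ∀ p ∈ antidiagonal n, (FixS π a).coeff p.1 * (gtr (Ideal.span (Set.range f)) g h).coeff p.2 =
      ∑ b : ∀ s, Fin (a s), if ∑ s, (b s : ℕ) = p.2 then (FixS π a).coeff p.1 * c (lowF a b) else 0 := by
    intro p _
    rw [hgtr, mul_sum, sum_filter]
  rw [sum_congr rfl h3, sum_comm]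
  refine sum_congr rfl fun b _ => ?_
  split_ifs with h4
  · rw [sum_eq_single (n - ∑ s, (b s : ℕ), ∑ s, (b s : ℕ))]
    · simp
    · rintro ⟨i, j⟩ hp hne
      rw [HasAntidiagonal.mem_antidiagonal] at hp
      rw [if_neg]
      intro h5
      apply hne
      simp only at h5 hp
      rw [Prod.mk.injEq]
      omega
    · intro hp
      exfalso
      apply hp
      rw [HasAntidiagonal.mem_antidiagonal]
      simp only
      omega
  · rw [zero_mul]
    symm
    apply sum_eq_zero
    rintro ⟨i, j⟩ hp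
    rw [HasAntidiagonal.mem_antidiagonal] at hp
    simp only at hp
    rw [if_neg]
    intro h5
    simp only at h5
    omega

end Pool.Agent.L7h79.BQ
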