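import Pool.Agent.L7h38.BQ.Stm
import Pool.Agent.V11211.Trace

/-!
# The batch quotient ring: additivity of the graded trace
-/

set_option autoImplicit false
set_option linter.unusedSectionVars false

namespace Pool.Agent.L7h79.BQ

open MvPolynomial Finset
open Pool.Agent.L7h38.BQ

/-- the trace in a short exact sequence -/
theorem trace_exact {U V W : Type} [AddCommGroup U] [Module ℚ U] [AddCommGroup V] [Module ℚ V] [AddCommGroup W]
    [Module ℚ W] [Module.Finite ℚ V] (α : U →ₗ[ℚ] V) (β : V →ₗ[ℚ] W) (hα : Function.Injective α)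
    (hβ : Function.Surjective β) (hex : LinearMap.range α = LinearMap.ker β) (FU : U →ₗ[ℚ] U) (FV : V →ₗ[ℚ] V)
    (FW : W →ₗ[ℚ] W) (h1 : ∀ u, FV (α u) = α (FU u)) (h2 : ∀ v, β (FV v) = FW (β v)) :
    LinearMap.trace ℚ V FV = LinearMap.trace ℚ W FW + LinearMap.trace ℚ U FU := by
  have hk : LinearMap.ker β ≤ (LinearMap.ker β).comap FV := by
    intro v hv
    rw [LinearMap.mem_ker] at hv
    rw [Submodule.mem_comap, LinearMap.mem_ker, h2, hv, map_zero]
  rw [Pool.Agent.V11211.trace_eq_add (LinearMap.ker β) FV hk, add_comm]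
  congr 1
  · refine Pool.Agent.V11211.trace_eq_of_equiv _ _ (β.quotKerEquivOfSurjective hβ) fun v => ?_
    obtain ⟨v, rfl⟩ := Submodule.Quotient.mk_surjective _ v
    exact h2 v
  · obtain ⟨ε, hε⟩ : ∃ ε : U ≃ₗ[ℚ] LinearMap.ker β, ∀ u, (ε u : V) = α u := by
      refine ⟨(LinearEquiv.ofInjective α hα).trans (LinearEquiv.ofEq _ _ hex), fun u => rfl⟩
    symm
    refine Pool.Agent.V11211.trace_eq_of_equiv _ _ ε fun u => ?_
    apply Subtype.ext
    rw [hε]
    show α (FU u) = FV (ε u : V)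
    rw [hε, h1]

variable {σ : Type} [Fintype σ]

theorem pc_finite (I : Ideal (MvPolynomial σ ℚ)) (i : ℕ) : Module.Finite ℚ (pc I i) := by
  have h1 : Module.Finite ℚ (homogeneousSubmodule σ ℚ i) := Module.Finite.iff_fg.2 (homogeneousSubmodule_fg σ ℚ i)
  exact Module.Finite.map _ _

theorem mk_zero_iff (I : Ideal (MvPolynomial σ ℚ)) (p : MvPolynomial σ ℚ) :
    (Ideal.Quotient.mkₐ ℚ I).toLinearMap p = 0 ↔ p ∈ I := Ideal.Quotient.eq_zero_iff_mem

/-- the components of a product -/
theorem comp_mul (e v : MvPolynomial σ ℚ) (c : ℕ) (he : e.IsHomogeneous c) (n : ℕ) :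
    homogeneousComponent n (e * v) = if c ≤ n then e * homogeneousComponent (n - c) v else 0 := by
  conv_lhs => rw [← sum_homogeneousComponent v, mul_sum, map_sum]
  have h1 : ∀ i ∈ range (v.totalDegree + 1), homogeneousComponent n (e * homogeneousComponent i v) =
      if n = c + i then e * homogeneousComponent i v else 0 := by
    intro i _
    exact homogeneousComponent_of_mem (he.mul (homogeneousComponent_isHomogeneous i v))
  rw [sum_congr rfl h1]
  split_ifs with h
  · by_cases h2 : n - c ∈ range (v.totalDegree + 1)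
    · rw [sum_eq_single_of_mem (n - c) h2]
      · rw [if_pos (by omega)]
      · intro j _ hj
        rw [if_neg (by omega)]
    · rw [homogeneousComponent_eq_zero _ _ (by rw [mem_range] at h2; omega), mul_zero]
      apply sum_eq_zero
      intro i hi
      rw [if_neg]
      rintro h3
      apply h2
      have : n - c = i := by omega
      rw [this]
      exact hi
  · apply sum_eq_zero
    intro i _
    rw [if_neg (by omega)]

/-- **TREX** -/
theorem s_TREX : S_TREX := by
  intro σ _ I I' I'' e c g h h' h'' hI he hge hI'' heI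
  have hle : I ≤ I'' := by rw [hI'']; exact le_sup_left
  -- the maps
  obtain ⟨q, hq⟩ : ∃ q : MvPolynomial σ ℚ →ₗ[ℚ] MvPolynomial σ ℚ ⧸ I, q = (Ideal.Quotient.mkₐ ℚ I).toLinearMap := ⟨_, rfl⟩
  obtain ⟨α, hα⟩ : ∃ α : (MvPolynomial σ ℚ ⧸ I') →ₗ[ℚ] (MvPolynomial σ ℚ ⧸ I), ∀ p : MvPolynomial σ ℚ,
      α ((Ideal.Quotient.mkₐ ℚ I').toLinearMap p) = (Ideal.Quotient.mkₐ ℚ I).toLinearMap (e * p) := by
    refine ⟨(Submodule.mapQ I' I (LinearMap.mulLeft (MvPolynomial σ ℚ) e) ?_).restrictScalars ℚ, fun p => rfl⟩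
    intro p hp
    exact (heI p).2 hp
  obtain ⟨β, hβ⟩ : ∃ β : (MvPolynomial σ ℚ ⧸ I) →ₗ[ℚ] (MvPolynomial σ ℚ ⧸ I''), ∀ p : MvPolynomial σ ℚ,
      β ((Ideal.Quotient.mkₐ ℚ I).toLinearMap p) = (Ideal.Quotient.mkₐ ℚ I'').toLinearMap p := by
    refine ⟨(Submodule.mapQ I I'' (LinearMap.id (R := MvPolynomial σ ℚ)) ?_).restrictScalars ℚ, fun p => rfl⟩
    intro p hp
    exact hle hp
  have hα1 : Function.Injective α := by
    rw [injective_iff_map_eq_zero]
    intro x hx
    obtain ⟨p, rfl⟩ := Ideal.Quotient.mk_surjective x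
    have h1 := hα p
    have h2 : (Ideal.Quotient.mkₐ ℚ I).toLinearMap (e * p) = 0 := h1.symm.trans hx
    exact (mk_zero_iff I' p).2 ((heI p).1 ((mk_zero_iff I _).1 h2))
  ext i
  haveI : Module.Finite ℚ (pc I i) := pc_finite I i
  have hβi : ∀ x ∈ pc I i, β x ∈ pc I'' i := by
    rintro _ ⟨p, hp, rfl⟩
    exact ⟨p, hp, (hβ p).symm⟩
  have hβs : Function.Surjective (β.restrict hβi) := by
    rintro ⟨_, p, hp, rfl⟩
    refine ⟨⟨(Ideal.Quotient.mkₐ ℚ I).toLinearMap p, p, hp, rfl⟩, ?_⟩
    apply Subtype.ext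
    exact hβ p
  -- the kernel
  have hker : ∀ x ∈ pc I i, β x = 0 → if c ≤ i then ∃ y ∈ pc I' (i - c), α y = x else x = 0 := by
    rintro _ ⟨p, hp, rfl⟩ hx
    rw [hβ, mk_zero_iff, hI'', Submodule.mem_sup] at hx
    obtain ⟨u, hu, v, hv, huv⟩ := hx
    rw [Ideal.mem_span_singleton'] at hv
    obtain ⟨w, rfl⟩ := hv
    have h1 : homogeneousComponent i p = p := by rw [homogeneousComponent_of_mem hp, if_pos rfl]
    have h2 : p = homogeneousComponent i u + if c ≤ i then e * homogeneousComponent (i - c) w else 0 := by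
      rw [← h1, ← huv, map_add, mul_comm w e, comp_mul e w c he]
    have h3 := hI u hu i
    split_ifs at h2 ⊢ with h4
    · refine ⟨(Ideal.Quotient.mkₐ ℚ I').toLinearMap (homogeneousComponent (i - c) w),
        ⟨_, homogeneousComponent_isHomogeneous (i - c) w, rfl⟩, ?_⟩
      rw [hα, ← sub_eq_zero, ← map_sub, mk_zero_iff]
      have h5 : e * homogeneousComponent (i - c) w - p = - homogeneousComponent i u := by
        conv_lhs => rw [h2]
        ring
      rw [h5]
      exact neg_mem h3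
    · rw [mk_zero_iff, h2, add_zero]
      exact h3
  have hFβ : ∀ v : pc I i, (β.restrict hβi) ((act I g h).toLinearMap.restrict (act_pc I g h i) v) =
      (act I'' g h'').toLinearMap.restrict (act_pc I'' g h'' i) (β.restrict hβi v) := by
    rintro ⟨_, p, hp, rfl⟩
    apply Subtype.ext
    show β ((Ideal.Quotient.mkₐ ℚ I).toLinearMap (rename g p)) = act I'' g h'' (β ((Ideal.Quotient.mkₐ ℚ I).toLinearMap p))
    rw [hβ, hβ]
    rfl
  rw [map_add, PowerSeries.coeff_X_pow_mul', gtr, gtr, gtr, PowerSeries.coeff_mk, PowerSeries.coeff_mk]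
  split_ifs with hc
  · rw [PowerSeries.coeff_mk]
    have hαi : ∀ x ∈ pc I' (i - c), α x ∈ pc I i := by
      rintro _ ⟨p, hp, rfl⟩
      rw [hα]
      refine ⟨e * p, ?_, rfl⟩
      have h1 := he.mul hp
      rw [Nat.add_sub_cancel' hc] at h1
      exact h1
    apply trace_exact (α.restrict hαi) (β.restrict hβi)
    · intro x y hxy
      apply Subtype.ext
      apply hα1
      exact congrArg Subtype.val hxy
    · exact hβs
    · ext x
      rw [LinearMap.mem_range, LinearMap.mem_ker]
      constructor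
      · rintro ⟨y, rfl⟩
        apply Subtype.ext
        obtain ⟨p, hp, hpy⟩ := y.2
        show β (α y) = 0
        rw [← hpy, hα, hβ, mk_zero_iff, hI'']
        exact Ideal.mem_sup_right (Ideal.mem_span_singleton'.2 ⟨p, mul_comm _ _⟩)
      · intro hx
        have h1 := hker x x.2 (congrArg Subtype.val hx)
        rw [if_pos hc] at h1
        obtain ⟨y, hy, hyx⟩ := h1
        exact ⟨⟨y, hy⟩, Subtype.ext hyx⟩
    · rintro ⟨_, p, hp, rfl⟩
      apply Subtype.ext
      show act I g h (α ((Ideal.Quotient.mkₐ ℚ I').toLinearMap p)) =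
        α ((Ideal.Quotient.mkₐ ℚ I').toLinearMap (rename g p))
      rw [hα, hα]
      have h1 : act I g h ((Ideal.Quotient.mkₐ ℚ I).toLinearMap (e * p)) =
        (Ideal.Quotient.mkₐ ℚ I).toLinearMap (rename g (e * p)) := rfl
      rw [h1, map_mul, hge]
    · exact hFβ
  · rw [add_zero]
    have hinj : Function.Injective (β.restrict hβi) := by
      rw [injective_iff_map_eq_zero]
      intro x hx
      have h1 := hker x x.2 (congrArg Subtype.val hx)
      rw [if_neg hc] at h1
      exact Subtype.ext h1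
    exact Pool.Agent.V11211.trace_eq_of_equiv _ _ (LinearEquiv.ofBijective _ ⟨hinj, hβs⟩) hFβ

end Pool.Agent.L7h79.BQ
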