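import Pool.Agent.L7h79.BQ.Bas

/-!
# The batch quotient ring: the trace of a permutation by comparing two bases
-/

set_option autoImplicit false
set_option linter.unusedSectionVars false

namespace Pool.Agent.L7h79.BQ

open MvPolynomial Finset
open Pool.Agent.L7h38.BQ

/-- the trace on a subspace spanned by elements of a basis -/
theorem trace_sub {ι V : Type} [AddCommGroup V] [Module ℚ V] (B : Module.Basis ι ℚ V) (S : Finset ι)
    (W : Submodule ℚ V) (hW : W = Submodule.span ℚ (B '' S)) (F : V →ₗ[ℚ] V) (hF : ∀ x ∈ W, F x ∈ W) :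
    LinearMap.trace ℚ W (F.restrict hF) = ∑ i ∈ S, B.repr (F (B i)) i := by
  classical
  have hmem : ∀ i : S, B i ∈ W := by
    intro i
    rw [hW]
    exact Submodule.subset_span ⟨i, i.2, rfl⟩
  obtain ⟨v, hv⟩ : ∃ v : S → W, v = fun i => ⟨B i, hmem i⟩ := ⟨_, rfl⟩
  have hv' : ∀ i, (v i : V) = B i := by intro i; rw [hv]
  have hli : LinearIndependent ℚ v := by
    apply LinearIndependent.of_comp W.subtype
    have h1 : W.subtype ∘ v = B ∘ (fun i : S => (i : ι)) := by
      funext i
      exact hv' i
    rw [h1]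
    exact B.linearIndependent.comp _ Subtype.val_injective
  have hmap : (Submodule.span ℚ (Set.range v)).map W.subtype = W := by
    rw [Submodule.map_span, ← Set.range_comp]
    conv_rhs => rw [hW]
    congr 1
    ext x
    constructor
    · rintro ⟨i, rfl⟩
      exact ⟨i, i.2, (hv' i).symm⟩
    · rintro ⟨i, hi, rfl⟩
      exact ⟨⟨i, hi⟩, hv' ⟨i, hi⟩⟩
  have hsp : ⊤ ≤ Submodule.span ℚ (Set.range v) := by
    intro w _
    have h1 : (w : V) ∈ (Submodule.span ℚ (Set.range v)).map W.subtype := by
      rw [hmap]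
      exact w.2
    obtain ⟨w', hw', hww⟩ := h1
    have h2 : w' = w := Subtype.ext hww
    rwa [h2] at hw'
  obtain ⟨b, hb⟩ : ∃ b : Module.Basis S ℚ W, b = Module.Basis.mk hli hsp := ⟨_, rfl⟩
  have hbv : ∀ i, b i = v i := by
    intro i
    rw [hb, Module.Basis.mk_apply]
  have hrepr : ∀ (w : W) (i : S), b.repr w i = B.repr (w : V) i := by
    intro w i
    have h1 : b.coord i = (B.coord i).comp W.subtype := by
      refine b.ext fun j => ?_
      rw [LinearMap.comp_apply, Submodule.subtype_apply, Module.Basis.coord_apply, Module.Basis.coord_apply,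
        Module.Basis.repr_self, hbv, hv', Module.Basis.repr_self, Finsupp.single_apply, Finsupp.single_apply]
      by_cases h : j = i
      · rw [if_pos h, if_pos (by rw [h])]
      · rw [if_neg h, if_neg (fun h' => h (Subtype.ext h'))]
    exact LinearMap.congr_fun h1 w
  rw [LinearMap.trace_eq_matrix_trace ℚ b, Matrix.trace]
  refine Eq.trans ?_ (Finset.sum_coe_sort S (fun i => B.repr (F (B i)) i))
  refine sum_congr rfl fun i _ => ?_
  rw [Matrix.diag_apply, LinearMap.toMatrix_apply, hrepr]
  congr 2
  rw [hbv]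
  show F (v i : V) = F (B i)
  rw [hv']

variable {σ : Type} [Fintype σ] [DecidableEq σ]

/-- the exponents of degree `n` -/
abbrev En (σ : Type) [Fintype σ] [DecidableEq σ] (n : ℕ) : Finset (σ →₀ ℕ) := (univ : Finset σ).finsuppAntidiag n

theorem mem_En {n : ℕ} {e : σ →₀ ℕ} : e ∈ En σ n ↔ ∑ s, e s = n := by
  rw [mem_finsuppAntidiag]
  exact ⟨fun h => h.1, fun h => ⟨h, subset_univ _⟩⟩

theorem card_fun (P : (σ → ℕ) → Prop) (S : Finset (σ →₀ ℕ)) (h : ∀ e : σ →₀ ℕ, e ∈ S ↔ P e) :
    Nat.card {μ : σ → ℕ // P μ} = S.card := by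
  rw [← Fintype.card_coe, ← Nat.card_eq_fintype_card]
  refine Nat.card_congr ⟨fun μ => ⟨Finsupp.equivFunOnFinite.symm μ.1, (h _).2 μ.2⟩,
    fun e => ⟨e.1, (h _).1 e.2⟩, fun μ => ?_, fun e => ?_⟩
  · rfl
  · apply Subtype.ext
    ext s
    rfl

/-- the homogeneous submodule for a graded basis -/
theorem homog_span (B : Module.Basis (σ →₀ ℕ) ℚ (MvPolynomial σ ℚ))
    (hB : ∀ e, (B e).IsHomogeneous (∑ s, e s)) (n : ℕ) :
    homogeneousSubmodule σ ℚ n = Submodule.span ℚ (B '' (En σ n : Set (σ →₀ ℕ))) := by
  apply le_antisymm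
  · intro p hp
    have h1 : homogeneousComponent n p = p := by rw [homogeneousComponent_of_mem hp, if_pos rfl]
    rw [← h1]
    have h2 : p ∈ Submodule.span ℚ (Set.range B) := by rw [B.span_eq]; trivial
    clear hp h1
    induction h2 using Submodule.span_induction with
    | mem x hx =>
      obtain ⟨e, rfl⟩ := hx
      rw [homogeneousComponent_of_mem (hB e)]
      split_ifs with h
      · exact Submodule.subset_span ⟨e, mem_coe.2 (mem_En.2 h.symm), rfl⟩
      · exact Submodule.zero_mem _
    | zero => rw [map_zero]; exact Submodule.zero_mem _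
    | add x y _ _ hx hy => rw [map_add]; exact Submodule.add_mem _ hx hy
    | smul c x _ hx => rw [map_smul]; exact Submodule.smul_mem _ _ hx
  · rw [Submodule.span_le]
    rintro _ ⟨e, he, rfl⟩
    have h1 := hB e
    rw [mem_En.1 (mem_coe.1 he)] at h1
    exact h1

theorem rename_homog (g : Equiv.Perm σ) (n : ℕ) :
    ∀ x ∈ homogeneousSubmodule σ ℚ n, (rename g : MvPolynomial σ ℚ →ₐ[ℚ] MvPolynomial σ ℚ).toLinearMap x ∈
      homogeneousSubmodule σ ℚ n := by
  intro x hx
  have hx' : x.IsHomogeneous n := hx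
  exact hx'.rename_isHomogeneous

/-- the trace on the polynomials of degree `n` from the monomials -/
theorem trace_mon (g : Equiv.Perm σ) (n : ℕ) :
    LinearMap.trace ℚ (homogeneousSubmodule σ ℚ n)
      ((rename g : MvPolynomial σ ℚ →ₐ[ℚ] MvPolynomial σ ℚ).toLinearMap.restrict (rename_homog g n)) =
      (FixS g (fun _ => 1)).coeff n := by
  rw [trace_sub (basisMonomials σ ℚ) (En σ n) _ (homog_span _ (fun e => by
    rw [coe_basisMonomials]
    exact isHomogeneous_monomial (1 : ℚ) (degree_sum e)) n)]
  have h1 : ∀ e ∈ En σ n, (basisMonomials σ ℚ).repr ((rename g : MvPolynomial σ ℚ →ₐ[ℚ] MvPolynomial σ ℚ).toLinearMap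
      ((basisMonomials σ ℚ) e)) e = if (∀ s, e (g s) = e s) then 1 else 0 := by
    intro e _
    have h2 : (rename g : MvPolynomial σ ℚ →ₐ[ℚ] MvPolynomial σ ℚ).toLinearMap ((basisMonomials σ ℚ) e) =
        (basisMonomials σ ℚ) (e.mapDomain g) := by
      rw [coe_basisMonomials]
      show rename g (monomial e 1) = monomial (e.mapDomain g) 1
      rw [rename_monomial]
    rw [h2, Module.Basis.repr_self, Finsupp.single_apply]
    congr 1
    apply propext
    constructor
    · intro h s
      have h3 : (e.mapDomain g) (g s) = e s := Finsupp.mapDomain_apply g.injective e s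
      rw [h] at h3
      exact h3
    · intro h
      ext t
      obtain ⟨s, rfl⟩ := g.surjective t
      rw [Finsupp.mapDomain_apply g.injective, h s]
  rw [sum_congr rfl h1, sum_boole, FixS, PowerSeries.coeff_mk]
  congr 1
  symm
  apply card_fun
  intro e
  rw [mem_filter, mem_En]
  simp only [one_mul]
  exact and_comm

/-- `f ^ μ` times an element of the family -/
theorem pow_mul_Bg (f : σ → MvPolynomial σ ℚ) (a : σ → ℕ) (ha : ∀ s, 1 ≤ a s) (μ : σ → ℕ) (e : σ →₀ ℕ) :
    (∏ s, f s ^ μ s) * Bg f a e = Bg f a (e + Finsupp.equivFunOnFinite.symm fun s => a s * μ s) := by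
  unfold Bg
  rw [← prod_mul_distrib]
  refine prod_congr rfl fun s _ => ?_
  have h1 : (e + Finsupp.equivFunOnFinite.symm fun s => a s * μ s) s = e s + a s * μ s := rfl
  rw [h1, Nat.add_mul_div_left _ _ (ha s), Nat.add_mul_mod_self_left, pow_add]
  ring

/-- the quotients of the exponents -/
noncomputable def quo (a : σ → ℕ) (e : σ →₀ ℕ) : σ → ℕ := fun s => e s / a s

/-- the remainders of the exponents -/
noncomputable def rem (a : σ → ℕ) (e : σ →₀ ℕ) : σ →₀ ℕ := Finsupp.equivFunOnFinite.symm fun s => e s % a s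

theorem rem_apply (a : σ → ℕ) (e : σ →₀ ℕ) (s : σ) : rem a e s = e s % a s := rfl

theorem quo_rem (a : σ → ℕ) (e : σ →₀ ℕ) :
    rem a e + (Finsupp.equivFunOnFinite.symm fun s => a s * quo a e s) = e := by
  ext s
  show e s % a s + a s * (e s / a s) = e s
  exact Nat.mod_add_div _ _

/-- the diagonal entries of the permutation in the basis `Bg` -/
theorem diag_Bg (f : σ → MvPolynomial σ ℚ) (a : σ → ℕ) (g π : Equiv.Perm σ) (ha : ∀ s, 1 ≤ a s)
    (hfg : ∀ s, rename g (f s) = f (π s)) (B : Module.Basis (σ →₀ ℕ) ℚ (MvPolynomial σ ℚ)) (hB : ∀ e, B e = Bg f a e)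
    (e : σ →₀ ℕ) :
    B.repr (rename g (Bg f a e)) e =
      if (∀ s, quo a e (π s) = quo a e s) then B.repr (rename g (Bg f a (rem a e))) (rem a e) else 0 := by
  obtain ⟨μ, hμ⟩ : ∃ μ : σ → ℕ, μ = quo a e := ⟨_, rfl⟩
  obtain ⟨b, hb⟩ : ∃ b : σ →₀ ℕ, b = rem a e := ⟨_, rfl⟩
  have hblt : ∀ s, b s < a s := by
    intro s
    rw [hb, rem_apply]
    exact Nat.mod_lt _ (ha s)
  have he : e = b + Finsupp.equivFunOnFinite.symm fun s => a s * μ s := by
    rw [hb, hμ]
    exact (quo_rem a e).symm
  obtain ⟨ν, hν⟩ : ∃ ν : σ → ℕ, ν = fun t => μ (π.symm t) := ⟨_, rfl⟩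
  have h1 : rename g (Bg f a e) = (∏ s, f s ^ ν s) * rename g (Bg f a b) := by
    conv_lhs => rw [he, ← pow_mul_Bg f a ha, map_mul, map_prod]
    congr 1
    have h2 : ∀ s, rename g (f s ^ μ s) = f (π s) ^ ν (π s) := by
      intro s
      rw [map_pow, hfg, hν]
      simp
    rw [prod_congr rfl (fun s _ => h2 s)]
    exact Equiv.prod_comp π (fun s => f s ^ ν s)
  rw [← hμ, ← hb, h1]
  -- the linear functional
  obtain ⟨p, hp⟩ : ∃ p : MvPolynomial σ ℚ, p = rename g (Bg f a b) := ⟨_, rfl⟩
  rw [← hp]
  have hL : ∀ q : MvPolynomial σ ℚ, B.repr ((∏ s, f s ^ ν s) * q) e =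
      if (∀ s, μ (π s) = μ s) then B.repr q b else 0 := by
    intro q
    have hext : (B.coord e).comp (LinearMap.mulLeft ℚ (∏ s, f s ^ ν s)) =
        if (∀ s, μ (π s) = μ s) then B.coord b else 0 := by
      refine B.ext fun e' => ?_
      rw [LinearMap.comp_apply, LinearMap.mulLeft_apply, hB e', pow_mul_Bg f a ha, ← hB, Module.Basis.coord_apply,
        Module.Basis.repr_self, Finsupp.single_apply]
      split_ifs with h2 h3 h3
      · -- equal exponents, the function is invariant
        have h4 : ν = μ := by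
          funext t
          rw [hν]
          have := h3 (π.symm t)
          rw [Equiv.apply_symm_apply] at this
          exact this.symm
        rw [h4, he] at h2
        have h5 : e' = b := add_right_cancel h2
        rw [h5, ← hB, Module.Basis.coord_apply, Module.Basis.repr_self, Finsupp.single_eq_same]
      · exfalso
        apply h3
        have h4 : ∀ s, ν s ≤ μ s := by
          intro s
          have h5 := DFunLike.congr_fun h2 s
          rw [he] at h5
          have h6 : e' s + a s * ν s = b s + a s * μ s := h5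
          by_contra hcon
          push Not at hcon
          have h7 : a s * (μ s + 1) ≤ a s * ν s := Nat.mul_le_mul_left _ hcon
          have h8 := hblt s
          rw [mul_add, mul_one] at h7
          omega
        have h5 : ∑ s, ν s = ∑ s, μ s := by
          rw [hν]
          exact Equiv.sum_comp π.symm μ
        have h6 := (sum_eq_sum_iff_of_le (fun s _ => h4 s)).1 h5
        intro s
        have h7 := h6 (π s) (mem_univ _)
        rw [hν] at h7
        simp only [Equiv.symm_apply_apply] at h7
        exact h7.symm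
      · have h4 : ν = μ := by
          funext t
          rw [hν]
          have := h3 (π.symm t)
          rw [Equiv.apply_symm_apply] at this
          exact this.symm
        have h5 : e' ≠ b := by
          intro h6
          apply h2
          rw [h4, he, h6]
        rw [← hB, Module.Basis.coord_apply, Module.Basis.repr_self, Finsupp.single_eq_of_ne (Ne.symm h5)]
      · simp
    have h2 := LinearMap.congr_fun hext q
    rw [LinearMap.comp_apply, LinearMap.mulLeft_apply, Module.Basis.coord_apply] at h2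
    rw [h2]
    split_ifs <;> rfl
  exact hL p

end Pool.Agent.L7h79.BQ
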